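import Pool.Agent.W401.OC.Eight

/-!
# Oriented cycle covers with every multiplicity at least two

For every finite simple graph `G` without cut edges and every `k ≥ 2` there is a finite list of
directed cycles of length at least three which traverses every arc of the associated digraph
`D(G)` exactly `k` times. (The oriented cycle double cover conjecture is the case `k = 1`.)

Proof. The circuit double cover theorem of the starting files gives eight even subgraphs covering
every edge exactly twice. Merging the eight indices into three classes gives three even subgraphs
`A, B, C` such that every edge whose two indices are separated lies in exactly two of them and every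
other edge in none. With Eulerian orientations `a, b, c` of `A, B, C` the four balanced functions
`(a+b+c)/2, (a-b-c)/2, (-a+b-c)/2, (-a-b+c)/2` take the value one on every arc of `A ∪ B ∪ C` exactly
once in total, so `D(A ∪ B ∪ C)` decomposes into directed cycles of length at least three. The four
parallel classes of the affine plane of order three, restricted to eight points, separate every pair
of indices exactly three times (`k = 3`); the eight singletons separate every pair exactly twice
(`k = 2`); sums give all `k ≥ 2`.
-/

set_option autoImplicit false

open scoped Classical

namespace Pool.Agent.Results.MP_781dd6_co.AllMultiples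

open SimpleGraph Pool.Agent.W401.OC

/-- Let `G` be a finite simple graph without cut edges and let `k ≥ 2`. Then the digraph obtained
from `D(G)` by replacing every arc by `k` copies decomposes into directed cycles of length at
least three. -/
theorem result : ∀ (V : Type) [Fintype V] (G : SimpleGraph V),
    (∀ u v : V, G.Adj u v → (G.deleteEdges {s(u, v)}).Reachable u v) →
    ∀ k : ℕ, 2 ≤ k →
    ∃ C : List (Σ v : V, G.Walk v v),
      (∀ c ∈ C, c.2.IsCycle) ∧
      ∀ u v : V, G.Adj u v →
        (C.map (fun c => (c.2.darts.filter (fun d => decide (d.toProd = (u, v)))).length)).sum = k := by
  intro V _ G h k hk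
  obtain ⟨S, hS1, hS2⟩ := eight G h
  obtain ⟨K, hK⟩ := exists_cols k hk
  obtain ⟨L, hL1, hL2⟩ := many_col G S hS1 hS2 K
  refine ⟨L, hL1, fun u v huv => ?_⟩
  obtain ⟨a, b, hab, hs⟩ := Finset.card_eq_two.1 (hS1 s(u, v) huv)
  have h1 := hL2 u v a b huv hab hs
  rw [hK a b hab] at h1
  exact h1

end Pool.Agent.Results.MP_781dd6_co.AllMultiples
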