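import Pool.Agent.H126R2.CDC.Main
import Pool.Agent.W150.OC.Veblen

/-!
# Half-integral oriented cycle double covers

Every finite simple graph without cut edges has a cycle double cover (this is the circuit double
cover theorem of the starting files, `Pool.Agent.H126R2.CDC`, here for simple graphs and with
cycles in the sense of Mathlib). Taking every cycle in both directions, the arcs of the associated
digraph are covered exactly twice by directed cycles of length at least three.
-/

set_option autoImplicit false

open scoped Classical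

namespace Pool.Agent.Results.MP_781dd6_co.DoubledDigraph

open SimpleGraph Pool.Agent.H126R2.CDC
open Pool.Agent.Helper879.ECD (cn F2)

theorem sum_flatMap {α β : Type} (cs : List α) (g : α → List β) (f : β → ℕ) :
    ((cs.flatMap g).map f).sum = (cs.map fun c => ((g c).map f).sum).sum := by
  induction cs with
  | nil => simp
  | cons a t ih => simp [List.flatMap_cons, List.sum_append, ih]

/-- The circuit double cover theorem for simple graphs. -/
theorem cdc {V : Type} [Fintype V] (G : SimpleGraph V)
    (h : ∀ u v : V, G.Adj u v → (G.deleteEdges {s(u, v)}).Reachable u v) :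
    ∃ L : List (Σ v : V, G.Walk v v), (∀ c ∈ L, c.2.IsCycle) ∧
      ∀ e ∈ G.edgeSet, (L.map fun c => c.2.edges.count e).sum = 2 := by
  have h0 : ∀ e : G.edgeSet, ∃ p : V × V, (e : Sym2 V) = s(p.1, p.2) := by
    rintro ⟨e, he⟩
    induction e using Sym2.ind with
    | _ x y => exact ⟨(x, y), rfl⟩
  choose p hp using h0
  obtain ⟨v, hv⟩ : ∃ v : G.edgeSet × Bool → V, ∀ e : G.edgeSet, (e : Sym2 V) = s(v (e, false), v (e, true)) :=
    ⟨fun h => if h.2 then (p h.1).2 else (p h.1).1, fun e => by simpa using hp e⟩
  have hadj : ∀ e : G.edgeSet, G.Adj (v (e, false)) (v (e, true)) := by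
    intro e
    have := e.2
    rw [hv e] at this
    exact this
  have h1 : ∀ X : Finset V,
      cn (fun e => v (e, false)) (fun e => v (e, true)) Finset.univ X ≠ 1 := by
    intro X hX
    unfold cn at hX
    obtain ⟨e0, he0⟩ := Finset.card_eq_one.1 hX
    have hcr : ∀ e : G.edgeSet, ¬ (v (e, false) ∈ X ↔ v (e, true) ∈ X) ↔ e = e0 := by
      intro e
      have : e ∈ Finset.univ.filter (fun e : G.edgeSet => ¬ (v (e, false) ∈ X ↔ v (e, true) ∈ X)) ↔
          e ∈ ({e0} : Finset G.edgeSet) := by rw [he0]
      simpa using this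
    have hkey : ∀ x y : V, x ∈ X → y ∉ X → s(x, y) = (e0 : Sym2 V) → False := by
      intro x y hx hy hxy
      have hxy' : G.Adj x y := by
        have := e0.2
        rw [← hxy] at this
        exact this
      obtain ⟨q⟩ := h x y hxy'
      obtain ⟨d, _, hd1, hd2⟩ := q.exists_boundary_dart (X : Set V) hx hy
      have hda := d.adj
      rw [deleteEdges_adj] at hda
      have h2 : s(d.fst, d.snd) ∈ G.edgeSet := hda.1
      have h3 := hv ⟨s(d.fst, d.snd), h2⟩
      have h4 : ¬ (v (⟨s(d.fst, d.snd), h2⟩, false) ∈ X ↔ v (⟨s(d.fst, d.snd), h2⟩, true) ∈ X) := by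
        have h5 : s(d.fst, d.snd) = s(v (⟨s(d.fst, d.snd), h2⟩, false), v (⟨s(d.fst, d.snd), h2⟩, true)) := h3
        rw [Sym2.eq_iff] at h5
        rcases h5 with ⟨h6, h7⟩ | ⟨h6, h7⟩
        · rw [← h6, ← h7]
          intro h8
          exact hd2 (h8.1 hd1)
        · rw [← h6, ← h7]
          intro h8
          exact hd2 (h8.2 hd1)
      have h5 := (hcr _).1 h4
      apply hda.2
      rw [Set.mem_singleton_iff]
      exact (congrArg Subtype.val h5).trans hxy.symm
    have h6 := (hcr e0).2 rfl
    by_cases h7 : v (e0, false) ∈ X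
    · have h8 : v (e0, true) ∉ X := fun h8 => h6 ⟨fun _ => h8, fun _ => h7⟩
      exact hkey _ _ h7 h8 (hv e0).symm
    · have h8 : v (e0, true) ∈ X := by
        by_contra h8
        exact h6 ⟨fun h => absurd h h7, fun h => absurd h h8⟩
      exact hkey _ _ h8 h7 (by rw [Sym2.eq_swap]; exact (hv e0).symm)
  obtain ⟨S, hS1, hS2⟩ := exists_double_cover v h1
  -- the eight even subgraphs
  obtain ⟨H, hH⟩ : ∃ H : T3 → SimpleGraph V, ∀ c x y, (H c).Adj x y ↔
      ∃ hxy : G.Adj x y, c ∈ S ⟨s(x, y), hxy⟩ := by
    refine ⟨fun c => ⟨fun x y => ∃ hxy : G.Adj x y, c ∈ S ⟨s(x, y), hxy⟩, ?_, ?_⟩, fun c x y => Iff.rfl⟩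
    · constructor
      rintro x y ⟨hxy, hc⟩
      refine ⟨hxy.symm, ?_⟩
      have : (⟨s(y, x), hxy.symm⟩ : G.edgeSet) = ⟨s(x, y), hxy⟩ := Subtype.ext Sym2.eq_swap
      rw [this]
      exact hc
    · constructor
      rintro x ⟨hxx, _⟩
      exact G.loopless.irrefl x hxx
  have hle : ∀ c, H c ≤ G := by
    intro c x y hxy
    exact ((hH c x y).1 hxy).1
  have hev : ∀ c w, Even (((H c).neighborSet w).ncard) := by
    intro c w
    have h2 := hS2 c w
    set F : Finset (G.edgeSet × Bool) := Finset.univ.filter fun h => v h = w ∧ c ∈ S h.1 with hF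
    have h3 : ((F.card : ℕ) : F2) = 0 := by
      rw [← h2, hF, Finset.card_filter]
      push_cast
      refine Finset.sum_congr rfl fun h _ => ?_
      by_cases h4 : v h = w <;> by_cases h5 : c ∈ S h.1 <;> simp [h4, h5]
    have h4 : Even F.card := (ZMod.natCast_eq_zero_iff_even).1 h3
    have hsym : ∀ h : G.edgeSet × Bool, (h.1 : Sym2 V) = s(v h, v (h.1, !h.2)) := by
      rintro ⟨e, b⟩
      cases b
      · exact hv e
      · rw [Sym2.eq_swap]; exact hv e
    have h5 : (H c).neighborSet w = (fun h : G.edgeSet × Bool => v (h.1, !h.2)) '' (F : Set (G.edgeSet × Bool)) := by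
      ext x
      rw [mem_neighborSet, hH]
      constructor
      · rintro ⟨hxy, hc⟩
        have h6 : s(w, x) = s(v (⟨s(w, x), hxy⟩, false), v (⟨s(w, x), hxy⟩, true)) := hv ⟨s(w, x), hxy⟩
        rw [Sym2.eq_iff] at h6
        rcases h6 with ⟨h7, h8⟩ | ⟨h7, h8⟩
        · refine ⟨(⟨s(w, x), hxy⟩, false), ?_, ?_⟩
          · rw [hF, Finset.coe_filter]
            exact ⟨Finset.mem_univ _, h7.symm, hc⟩
          · exact h8.symm
        · refine ⟨(⟨s(w, x), hxy⟩, true), ?_, ?_⟩
          · rw [hF, Finset.coe_filter]
            exact ⟨Finset.mem_univ _, h7.symm, hc⟩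
          · exact h8.symm
      · rintro ⟨h, hh, rfl⟩
        rw [hF, Finset.coe_filter] at hh
        obtain ⟨_, hw, hc⟩ := hh
        have h6 := hsym h
        rw [hw] at h6
        have hxy : G.Adj w (v (h.1, !h.2)) := by
          have := h.1.2
          rw [h6] at this
          exact this
        refine ⟨hxy, ?_⟩
        have : (⟨s(w, v (h.1, !h.2)), hxy⟩ : G.edgeSet) = h.1 := Subtype.ext h6.symm
        rw [this]
        exact hc
    have h6 : Set.InjOn (fun h : G.edgeSet × Bool => v (h.1, !h.2)) (F : Set (G.edgeSet × Bool)) := by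
      intro a ha b hb hab
      rw [hF, Finset.coe_filter] at ha hb
      have h7 := hsym a
      have h8 := hsym b
      have h9 : v (a.1, !a.2) = v (b.1, !b.2) := hab
      rw [ha.2.1, h9] at h7
      rw [hb.2.1] at h8
      have h10 : a.1 = b.1 := Subtype.ext (h7.trans h8.symm)
      have h11 : a.2 = b.2 := by
        by_contra hne
        have h12 : b = (a.1, !a.2) := by
          apply Prod.ext
          · exact h10.symm
          · have hbool : ∀ p q : Bool, ¬ p = q → q = !p := by decide
            exact hbool _ _ hne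
        have h15 : v a = v b := ha.2.1.trans hb.2.1.symm
        rw [h12] at h15
        have h16 := hadj a.1
        have h17 := hsym a
        rw [← h15] at h17
        have h18 : s(v a, v a) ∈ G.edgeSet := by rw [← h17]; exact a.1.2
        exact G.loopless.irrefl _ h18
      exact Prod.ext h10 h11
    rw [h5, h6.ncard_image, Set.ncard_coe_finset]
    exact h4
  choose L hL1 hL2 using fun c => Pool.Agent.W150.OC.decomp _ (H c) rfl (hev c)
  refine ⟨(Finset.univ : Finset T3).toList.flatMap
    (fun c => (L c).map fun d => ⟨d.1, d.2.mapLe (hle c)⟩), ?_, ?_⟩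
  · intro d hd
    rw [List.mem_flatMap] at hd
    obtain ⟨c, _, hd⟩ := hd
    obtain ⟨d', hd', rfl⟩ := List.mem_map.1 hd
    exact (hL1 c d' hd').mapLe (hle c)
  · intro e he
    rw [sum_flatMap, Finset.sum_map_toList]
    have h2 : ∀ c ∈ (Finset.univ : Finset T3), (((L c).map fun d =>
        (⟨d.1, d.2.mapLe (hle c)⟩ : Σ v : V, G.Walk v v)).map fun c => c.2.edges.count e).sum =
        if c ∈ S ⟨e, he⟩ then 1 else 0 := by
      intro c _
      rw [List.map_map]
      have h3 : ((fun c : Σ v : V, G.Walk v v => c.2.edges.count e) ∘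
          fun d : Σ v : V, (H c).Walk v v => (⟨d.1, d.2.mapLe (hle c)⟩ : Σ v : V, G.Walk v v)) =
          fun d => d.2.edges.count e := by
        ext d
        simp only [Function.comp_apply, Walk.edges_mapLe_eq_edges]
      rw [h3]
      have h4 : e ∈ (H c).edgeSet ↔ c ∈ S ⟨e, he⟩ := by
        induction e using Sym2.ind with
        | _ x y =>
          rw [mem_edgeSet, hH]
          exact ⟨fun h => h.2, fun h => ⟨he, h⟩⟩
      by_cases h5 : c ∈ S ⟨e, he⟩
      · rw [if_pos h5]
        exact hL2 c e (h4.2 h5)
      · rw [if_neg h5, List.sum_eq_zero_iff]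
        intro x hx
        obtain ⟨d, _, rfl⟩ := List.mem_map.1 hx
        rw [List.count_eq_zero]
        intro h6
        exact h5 (h4.1 (d.2.edges_subset_edgeSet h6))
    rw [Finset.sum_congr rfl h2, Finset.sum_ite_mem, Finset.univ_inter, Finset.sum_const, hS1]
    rfl

theorem dart_count {V : Type} {G : SimpleGraph V} {u v : V} (huv : u ≠ v) (l : List G.Dart) :
    (l.filter (fun d => decide (d.toProd = (u, v)))).length +
      ((l.map Dart.symm).filter (fun d => decide (d.toProd = (u, v)))).length =
      (l.map Dart.edge).count s(u, v) := by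
  induction l with
  | nil => simp
  | cons a t ih =>
    rw [List.map_cons, List.map_cons, List.filter_cons, List.filter_cons, List.count_cons, ← ih]
    simp only [decide_eq_true_eq, beq_iff_eq]
    have h1 : (a.edge = s(u, v)) ↔ a.toProd = (u, v) ∨ a.symm.toProd = (u, v) := by
      rcases a with ⟨⟨x, y⟩, hxy⟩
      show s(x, y) = s(u, v) ↔ (x, y) = (u, v) ∨ (y, x) = (u, v)
      rw [Sym2.eq_iff, Prod.mk.injEq, Prod.mk.injEq]
      tauto
    have h2 : ¬ (a.toProd = (u, v) ∧ a.symm.toProd = (u, v)) := by
      rcases a with ⟨⟨x, y⟩, hxy⟩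
      rintro ⟨h3, h4⟩
      have h3' : (x, y) = (u, v) := h3
      have h4' : (y, x) = (u, v) := h4
      rw [Prod.mk.injEq] at h3' h4'
      exact huv (h3'.1.symm.trans h4'.2)
    by_cases h3 : a.toProd = (u, v)
    · have h4 : ¬ a.symm.toProd = (u, v) := fun h => h2 ⟨h3, h⟩
      rw [if_pos h3, if_neg h4, if_pos (h1.2 (Or.inl h3)), List.length_cons]
      omega
    · by_cases h4 : a.symm.toProd = (u, v)
      · rw [if_neg h3, if_pos h4, if_pos (h1.2 (Or.inr h4)), List.length_cons]
        omega
      · rw [if_neg h3, if_neg h4, if_neg (fun h => (h1.1 h).elim h3 h4)]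
        omega

/-- **Half-integral oriented cycle double covers.** Let `G` be a finite simple graph without cut
edges. There is a finite list `L` of cycles of `G` such that every edge lies on exactly two of them;
the members of `L` together with their reversals are directed cycles (of length at least three)
such that every arc `(u, v)` of the associated digraph is traversed exactly twice. -/
theorem result : ∀ (V : Type) [Fintype V] (G : SimpleGraph V),
    (∀ u v : V, G.Adj u v → (G.deleteEdges {s(u, v)}).Reachable u v) →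
    ∃ L : List (Σ v : V, G.Walk v v), (∀ c ∈ L, c.2.IsCycle) ∧
      (∀ e ∈ G.edgeSet, (L.map fun c => c.2.edges.count e).sum = 2) ∧
      ∀ u v : V, G.Adj u v →
        ((L ++ L.map fun c => (⟨c.1, c.2.reverse⟩ : Σ v : V, G.Walk v v)).map (fun c =>
          (c.2.darts.filter (fun d => decide (d.toProd = (u, v)))).length)).sum = 2 := by
  intro V _ G h
  obtain ⟨L, hL1, hL2⟩ := cdc G h
  refine ⟨L, hL1, hL2, fun u v huv => ?_⟩
  rw [← hL2 s(u, v) huv, List.map_append, List.sum_append, List.map_map]
  have h1 : ∀ l : List (Σ v : V, G.Walk v v),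
      (l.map (fun c => (c.2.darts.filter (fun d => decide (d.toProd = (u, v)))).length)).sum +
      (l.map ((fun c : Σ v : V, G.Walk v v =>
        (c.2.darts.filter (fun d => decide (d.toProd = (u, v)))).length) ∘
          fun c => (⟨c.1, c.2.reverse⟩ : Σ v : V, G.Walk v v))).sum = (l.map fun c => c.2.edges.count s(u, v)).sum := by
    intro l
    induction l with
    | nil => simp
    | cons a t ih =>
      simp only [List.map_cons, List.sum_cons, Function.comp_apply]
      rw [← ih]
      have h2 := dart_count huv.ne a.2.darts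
      have h3 : (a.2.reverse.darts.filter (fun d => decide (d.toProd = (u, v)))).length =
          ((a.2.darts.map Dart.symm).filter (fun d => decide (d.toProd = (u, v)))).length := by
        rw [Walk.darts_reverse, List.filter_reverse, List.length_reverse]
      rw [h3]
      have h4 : a.2.edges.count s(u, v) = (a.2.darts.map Dart.edge).count s(u, v) := rfl
      rw [h4, ← h2]
      simp only [Function.comp_def]
      omega
  exact h1 L

end Pool.Agent.Results.MP_781dd6_co.DoubledDigraph
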